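import Mathlib

/-!
# Two disjoint projectively equivalent copies of the blocking set `B` of `PG(2, p³)`
-/

set_option autoImplicit false

namespace Pool.Agent.Results.MP_837a86_co.DisjointCopies

open scoped LinearAlgebra.Projectivization
open Polynomial

/-- The point set `B = {(1, x, x^p)} ∪ {(0, 1, y) : y^(p²+p+1) = 1}` of the projective plane
over `F`. -/
def B (F : Type) [Field F] (p : ℕ) : Set (ℙ F (Fin 3 → F)) :=
  {P | (∃ x : F, ∃ h : ![1, x, x ^ p] ≠ 0, P = Projectivization.mk F ![1, x, x ^ p] h) ∨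
    (∃ y : F, y ^ (p ^ 2 + p + 1) = 1 ∧
      ∃ h : ![0, 1, y] ≠ 0, P = Projectivization.mk F ![0, 1, y] h)}

section aux

variable {F : Type} [Field F]

/-- A matrix of shape `(s₀, s₁, s₂) ↦ (s₁, e s₀ + f s₂, z s₀ + g s₁ + d s₂)` whose determinant
`e d - f z` is nonzero up to sign, as a linear equivalence. -/
noncomputable def gam (e f z g d : F) (h : e * d - f * z ≠ 0) : (Fin 3 → F) ≃ₗ[F] (Fin 3 → F) :=
  LinearEquiv.ofInjectiveEndo
    (Matrix.toLin' !![0, 1, 0; e, 0, f; z, g, d]) (by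
      rw [← LinearMap.ker_eq_bot, LinearMap.ker_eq_bot']
      intro s hs
      have h0 := congrFun hs 0
      have h1 := congrFun hs 1
      have h2 := congrFun hs 2
      simp [Matrix.toLin'_apply, Matrix.mulVec, dotProduct, Fin.sum_univ_three] at h0 h1 h2
      have h3 : (e * d - f * z) * s 0 = 0 := by
        linear_combination d * h1 - f * h2 + f * g * h0
      have h4 : (e * d - f * z) * s 2 = 0 := by
        linear_combination -z * h1 + e * h2 - e * g * h0
      have h5 := (mul_eq_zero.mp h3).resolve_left h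
      have h6 := (mul_eq_zero.mp h4).resolve_left h
      funext i
      fin_cases i
      · exact h5
      · exact h0
      · exact h6)

theorem gam_apply (e f z g d : F) (h : e * d - f * z ≠ 0) (s : Fin 3 → F) :
    gam e f z g d h s = ![s 1, e * s 0 + f * s 2, z * s 0 + g * s 1 + d * s 2] := by
  funext i
  fin_cases i <;>
  simp [gam, Matrix.toLin'_apply, Matrix.mulVec, dotProduct, Fin.sum_univ_three]

/-- If the four systems have no solutions, then `B` and its image are disjoint. -/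
theorem disjoint_of (p : ℕ) (γ : (Fin 3 → F) ≃ₗ[F] (Fin 3 → F))
    (hA : ∀ x w c : F, c ≠ 0 → c • γ ![1, x, x ^ p] ≠ ![1, w, w ^ p])
    (hB : ∀ x y c : F, c ≠ 0 → y ^ (p ^ 2 + p + 1) = 1 → c • γ ![1, x, x ^ p] ≠ ![0, 1, y])
    (hC : ∀ x y c : F, c ≠ 0 → y ^ (p ^ 2 + p + 1) = 1 → c • γ ![0, 1, y] ≠ ![1, x, x ^ p])
    (hD : ∀ x y c : F, c ≠ 0 → x ^ (p ^ 2 + p + 1) = 1 → y ^ (p ^ 2 + p + 1) = 1 →
      c • γ ![0, 1, y] ≠ ![0, 1, x]) :
    Disjoint (B F p) (Projectivization.map γ.toLinearMap γ.injective '' B F p) := by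
  rw [Set.disjoint_left]
  rintro P (⟨w, hw, rfl⟩ | ⟨w, hw1, hw, rfl⟩) ⟨Q, (⟨x, hx, rfl⟩ | ⟨x, hx1, hx, rfl⟩), hQ⟩
  all_goals
    rw [Projectivization.map_mk] at hQ
    obtain ⟨c, hc⟩ := (Projectivization.mk_eq_mk_iff F _ _ _ _).mp hQ.symm
  · exact hA x w c c.ne_zero hc
  · exact hC w x c c.ne_zero hx1 hc
  · exact hB x w c c.ne_zero hw1 hc
  · exact hD w x c c.ne_zero hw1 hx1 hc

end aux

section odd

variable {F : Type} [Field F] [Fintype F]

/-- A suitable element `x`, for odd `p`. -/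
theorem exists_x (p : ℕ) (hp : p.Prime) (hp3 : 3 ≤ p) (hF : Fintype.card F = p ^ 3) :
    ∃ x : F, x ≠ 0 ∧ x ≠ 1 ∧ ((x ^ (2 * p - 1) - 1) / (x - 1) ^ p) ^ (p ^ 2 + p + 1) ≠ 1 := by
  classical
  have : Fact p.Prime := ⟨hp⟩
  have : CharP F p := charP_of_card_eq_prime_pow hF
  by_contra hno
  push Not at hno
  have hcard : ∀ x : F, x ^ (p ^ 3) = x := fun x => by rw [← hF]; exact FiniteField.pow_card x
  have hsub : ∀ x : F, (x - 1) ^ p = x ^ p - 1 := fun x => by rw [sub_pow_char, one_pow]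
  have key : ∀ x : F, x ≠ 0 → (x ^ (2 * p - 1) - 1) * (x ^ ((2 * p - 1) * p) - 1) *
      (1 - x ^ (p ^ 2 - 2)) - x ^ (p ^ 2 - 2) * (x - 1) * (x ^ p - 1) * (x ^ (p ^ 2) - 1) = 0 := by
    intro x hx
    by_cases hx1 : x = 1
    · subst hx1; simp
    have h1 := hno x hx hx1
    have h2 : (x - 1) ^ p ≠ 0 := pow_ne_zero _ (sub_ne_zero.mpr hx1)
    rw [div_pow, div_eq_one_iff_eq (pow_ne_zero _ h2)] at h1
    have e1 : ∀ t : F, t ^ (p ^ 2 + p + 1) = t ^ (p ^ 2) * t ^ p * t := by
      intro t; rw [pow_succ, pow_add]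
    have e2 : ∀ t : F, t ^ (p ^ 2) = (t ^ p) ^ p := by
      intro t; rw [← pow_mul, sq]
    have e3 : ((x - 1) ^ p) ^ (p ^ 2 + p + 1) = (x - 1) * (x ^ (p ^ 2) - 1) * (x ^ p - 1) := by
      rw [e1, e2, hsub, hsub, hsub, ← pow_mul, ← pow_mul]
      have h5 : x ^ (p * (p * p)) = x := by rw [show p * (p * p) = p ^ 3 by ring]; exact hcard x
      rw [h5, ← pow_mul, ← sq]
    have e4 : (x ^ (2 * p - 1) - 1) ^ (p ^ 2 + p + 1) =
        (x ^ ((2 * p - 1) * p * p) - 1) * (x ^ ((2 * p - 1) * p) - 1) * (x ^ (2 * p - 1) - 1) := by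
      rw [e1, e2, hsub, hsub, ← pow_mul, ← pow_mul, mul_assoc (2 * p - 1) p p, ← pow_mul]
    rw [e3, e4] at h1
    have e5 : x ^ ((2 * p - 1) * p * p) * x ^ (p ^ 2) = x ^ 2 := by
      rw [← pow_add]
      have : (2 * p - 1) * p * p + p ^ 2 = p ^ 3 * 2 := by
        obtain ⟨k, rfl⟩ : ∃ k, p = k + 1 := ⟨p - 1, by omega⟩
        have : 2 * (k + 1) - 1 = 2 * k + 1 := by omega
        rw [this]; ring
      rw [this, pow_mul, hcard]
    have e6 : x ^ 2 * x ^ (p ^ 2 - 2) = x ^ (p ^ 2) := by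
      rw [← pow_add]; congr 1
      have : 2 ≤ p ^ 2 := by nlinarith
      omega
    have hx2 : x ^ 2 ≠ 0 := pow_ne_zero _ hx
    apply mul_left_cancel₀ hx2
    rw [mul_zero]
    linear_combination x ^ (p ^ 2) * h1 - (x ^ ((2 * p - 1) * p) - 1) * (x ^ (2 * p - 1) - 1) * e5
      - ((x ^ (2 * p - 1) - 1) * (x ^ ((2 * p - 1) * p) - 1)
        + (x - 1) * (x ^ p - 1) * (x ^ (p ^ 2) - 1)) * e6
  -- a polynomial with too many roots
  have main : ∀ S : F[X], S.eval 0 = 1 → (∀ x : F, x ≠ 0 → S.eval x = 0) →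
      p ^ 3 - 1 ≤ S.natDegree := by
    intro S hS0 hS
    have hne : S ≠ 0 := by
      intro h; rw [h, eval_zero] at hS0; exact zero_ne_one hS0
    have h1 : (Finset.univ.erase (0 : F)).val ⊆ S.roots := by
      intro x hx
      have hx' : x ≠ 0 := (Finset.mem_erase.mp hx).1
      exact (mem_roots hne).mpr (hS x hx')
    have h2 := card_le_degree_of_subset_roots h1
    rwa [Finset.card_erase_of_mem (Finset.mem_univ _), Finset.card_univ, hF] at h2
  rcases Nat.lt_or_ge p 4 with h4 | h4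
  · -- `p = 3`
    obtain rfl : p = 3 := by omega
    have h26 : ∀ x : F, x ≠ 0 → x ^ 26 = 1 := by
      intro x hx
      have := hcard x
      norm_num at this
      apply mul_right_cancel₀ hx
      rw [one_mul, ← pow_succ]; exact this
    have h3 : (3 : F) = 0 := by exact_mod_cast CharP.cast_eq_zero F 3
    have h := main (-X + X ^ 22 + X ^ 19 + X ^ 17 - X ^ 16 - X ^ 15 + X ^ 12 + X ^ 11 - X ^ 10
      - X ^ 8 - X ^ 5 + 1) (by simp) (by
        intro x hx
        have hk := key x hx
        norm_num at hk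
        simp only [eval_add, eval_sub, eval_neg, eval_pow, eval_X, eval_one]
        linear_combination hk + x * h26 x hx)
    have hdeg : (-X + X ^ 22 + X ^ 19 + X ^ 17 - X ^ 16 - X ^ 15 + X ^ 12 + X ^ 11 - X ^ 10
      - X ^ 8 - X ^ 5 + 1 : F[X]).natDegree ≤ 22 := by
      compute_degree
    omega
  · have h5 : 5 ≤ p := by
      rcases Nat.lt_or_ge p 5 with h | h
      · exfalso
        have : p = 4 := by omega
        subst this
        exact absurd hp (by norm_num)
      · exact h
    have h := main ((X ^ (2 * p - 1) - 1) * (X ^ ((2 * p - 1) * p) - 1) *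
      (1 - X ^ (p ^ 2 - 2)) - X ^ (p ^ 2 - 2) * (X - 1) * (X ^ p - 1) * (X ^ (p ^ 2) - 1)) (by
        have a1 : 2 * p - 1 ≠ 0 := by omega
        have a2 : (2 * p - 1) * p ≠ 0 := Nat.mul_ne_zero a1 (by omega)
        have a3 : p ^ 2 - 2 ≠ 0 := by
          have : 2 < p ^ 2 := by nlinarith
          omega
        simp [a1, a2, a3]) (by
        intro x hx
        simp only [eval_mul, eval_sub, eval_pow, eval_X, eval_one]
        exact key x hx)
    have hXd : ∀ k, (X ^ k - 1 : F[X]).natDegree ≤ k := by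
      intro k
      refine (natDegree_sub_le _ _).trans ?_
      rw [natDegree_one, natDegree_X_pow]; omega
    have hXd' : ∀ k, (1 - X ^ k : F[X]).natDegree ≤ k := by
      intro k
      refine (natDegree_sub_le _ _).trans ?_
      rw [natDegree_one, natDegree_X_pow]; omega
    have hX1 : (X - 1 : F[X]).natDegree ≤ 1 := by
      have := hXd 1
      rwa [pow_one] at this
    have hdeg : ((X ^ (2 * p - 1) - 1) * (X ^ ((2 * p - 1) * p) - 1) *
      (1 - X ^ (p ^ 2 - 2)) - X ^ (p ^ 2 - 2) * (X - 1) * (X ^ p - 1) *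
      (X ^ (p ^ 2) - 1) : F[X]).natDegree ≤
        max (2 * p - 1 + (2 * p - 1) * p + (p ^ 2 - 2)) (p ^ 2 - 2 + 1 + p + p ^ 2) := by
      refine (natDegree_sub_le _ _).trans (max_le_max ?_ ?_)
      · exact natDegree_mul_le_of_le (natDegree_mul_le_of_le (hXd _) (hXd _)) (hXd' _)
      · exact natDegree_mul_le_of_le (natDegree_mul_le_of_le (natDegree_mul_le_of_le
          (natDegree_X_pow_le _) hX1) (hXd _)) (hXd _)
    have hlt : max (2 * p - 1 + (2 * p - 1) * p + (p ^ 2 - 2)) (p ^ 2 - 2 + 1 + p + p ^ 2) <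
        p ^ 3 - 1 := by
      obtain ⟨k, rfl⟩ : ∃ k, p = k + 5 := ⟨p - 5, by omega⟩
      have b1 : 2 * (k + 5) - 1 = 2 * k + 9 := by omega
      have b2 : (k + 5) ^ 2 - 2 = k ^ 2 + 10 * k + 23 := by
        have : (k + 5) ^ 2 = k ^ 2 + 10 * k + 23 + 2 := by ring
        omega
      have b3 : (k + 5) ^ 3 - 1 = k ^ 3 + 15 * k ^ 2 + 75 * k + 124 := by
        have : (k + 5) ^ 3 = k ^ 3 + 15 * k ^ 2 + 75 * k + 124 + 1 := by ring
        omega
      rw [b1, b2, b3, max_lt_iff]
      constructor <;> nlinarith [Nat.zero_le (k ^ 3), Nat.zero_le (k ^ 2)]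
    omega

theorem odd_case (p : ℕ) (hp : p.Prime) (hp3 : 3 ≤ p) (hF : Fintype.card F = p ^ 3) :
    ∃ γ : (Fin 3 → F) ≃ₗ[F] (Fin 3 → F),
      Disjoint (B F p) (Projectivization.map γ.toLinearMap γ.injective '' B F p) := by
  classical
  obtain ⟨x, hx0, hx1, hz⟩ := exists_x p hp hp3 hF
  set z : F := (x ^ (2 * p - 1) - 1) / (x - 1) ^ p with hzdef
  have : Fact p.Prime := ⟨hp⟩
  have : CharP F p := charP_of_card_eq_prime_pow hF
  -- the map `v ↦ v^(2p-1) - z v^p` misses a nonzero value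
  obtain ⟨d, hd0, hd⟩ : ∃ d : F, d ≠ 0 ∧ ∀ v : F, v ≠ 0 → v ^ (2 * p - 1) - z * v ^ p ≠ d := by
    by_contra hno
    push Not at hno
    have hsurj : (Finset.univ.erase (0 : F)) ⊆
        (((Finset.univ.erase (0 : F)).erase x).image (fun v => v ^ (2 * p - 1) - z * v ^ p)) := by
      intro d hd
      obtain ⟨v, hv0, hv⟩ := hno d (Finset.mem_erase.mp hd).1
      by_cases hvx : v = x
      · refine Finset.mem_image.mpr ⟨1, ?_, ?_⟩
        · simp [Ne.symm hx1]
        · rw [← hv, hvx]
          have h2 : (x - 1) ^ p ≠ 0 := pow_ne_zero _ (sub_ne_zero.mpr hx1)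
          have h3 : z * (x - 1) ^ p = x ^ (2 * p - 1) - 1 := by
            rw [hzdef, div_mul_cancel₀ _ h2]
          rw [sub_pow_char, one_pow] at h3
          simp only [one_pow]
          clear_value z
          linear_combination h3
      · exact Finset.mem_image.mpr ⟨v, by simp [hvx, hv0], hv⟩
    have h1 := (Finset.card_le_card hsurj).trans Finset.card_image_le
    rw [Finset.card_erase_of_mem (show x ∈ Finset.univ.erase (0 : F) by simp [hx0])] at h1
    have h2 : 0 < (Finset.univ.erase (0 : F)).card := Finset.card_pos.mpr ⟨x, by simp [hx0]⟩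
    omega
  refine ⟨gam 1 0 z 0 d (by simpa using hd0), disjoint_of p _ ?_ ?_ ?_ ?_⟩
  · intro u w c hc h
    rw [gam_apply] at h
    have h0 := congrFun h 0
    have h1 := congrFun h 1
    have h2 := congrFun h 2
    simp at h0 h1 h2
    -- h0 : c * u = 1, h1 : c = w, h2 : c * (z + d * u ^ p) = w ^ p
    have hu : u ≠ 0 := by
      intro hu; rw [hu, mul_zero] at h0; exact zero_ne_one h0
    apply hd c hc
    subst h1
    have h3 : c ^ p * u ^ p = 1 := by rw [← mul_pow, h0, one_pow]
    have h4 : c ^ (2 * p - 1) * c = c ^ p * c ^ p := by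
      rw [← pow_succ, ← pow_add]; congr 1; omega
    apply mul_right_cancel₀ hc
    linear_combination h4 - c ^ p * h2 + c * d * h3
  · intro u y c hc hy h
    rw [gam_apply] at h
    have h0 := congrFun h 0
    have h1 := congrFun h 1
    have h2 := congrFun h 2
    simp at h0 h1 h2
    have hu : u = 0 := by
      rcases h0 with h0 | h0
      · exact absurd h0 hc
      · exact h0
    rw [hu, h1, zero_pow hp.ne_zero, mul_zero, add_zero, one_mul] at h2
    rw [h2] at hz
    exact hz hy
  · intro u y c hc hy h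
    rw [gam_apply] at h
    have h0 := congrFun h 0
    have h1 := congrFun h 1
    have h2 := congrFun h 2
    simp at h0 h1 h2
    rw [h0, ← h1, zero_pow hp.ne_zero, one_mul] at h2
    rcases mul_eq_zero.mp h2 with h3 | h3
    · exact hd0 h3
    · rw [h3, zero_pow (by positivity)] at hy
      exact zero_ne_one hy
  · intro u y c hc hu hy h
    rw [gam_apply] at h
    have h1 := congrFun h 1
    simp at h1

end odd

section even

variable {F : Type} [Field F] [Fintype F]

theorem even_case (hF : Fintype.card F = 2 ^ 3) :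
    ∃ γ : (Fin 3 → F) ≃ₗ[F] (Fin 3 → F),
      Disjoint (B F 2) (Projectivization.map γ.toLinearMap γ.injective '' B F 2) := by
  classical
  have : Fact (Nat.Prime 2) := ⟨Nat.prime_two⟩
  have : CharP F 2 := charP_of_card_eq_prime_pow hF
  have h2 : (2 : F) = 0 := by exact_mod_cast CharP.cast_eq_zero F 2
  have h8 : ∀ x : F, x ^ 8 = x := fun x => by
    have := FiniteField.pow_card x
    rw [hF] at this
    norm_num at this
    exact this
  have h7 : ∀ x : F, x ≠ 0 → x ^ 7 = 1 := by
    intro x hx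
    apply mul_right_cancel₀ hx
    rw [one_mul, ← pow_succ]; exact h8 x
  have hquad : ∀ y : F, y ^ 2 + y + 1 ≠ 0 := by
    intro y hy
    have hy0 : y ≠ 0 := by
      intro h; rw [h] at hy; simp at hy
    have h3 : y ^ 3 = 1 := by linear_combination (y - 1) * hy
    have hy1 : y = 1 := by
      have := h7 y hy0
      have h6 : y ^ 7 = y := by
        calc y ^ 7 = (y ^ 3) ^ 2 * y := by ring
          _ = y := by rw [h3]; ring
      rw [← h6]; exact this
    rw [hy1] at hy
    have : (1 : F) = 0 := by linear_combination hy - h2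
    exact one_ne_zero this
  -- an element `a` with `a³ = a + 1`
  obtain ⟨a, ha⟩ : ∃ a : F, a ^ 3 + a + 1 = 0 := by
    obtain ⟨x, hx⟩ : ∃ x : F, x ≠ 0 ∧ x ≠ 1 := by
      by_contra hno
      push Not at hno
      have : (Finset.univ : Finset F) ⊆ {0, 1} := by
        intro x _
        by_cases hx : x = 0
        · simp [hx]
        · simp [hno x hx]
      have h1 := Finset.card_le_card this
      rw [Finset.card_univ, hF] at h1
      have h3 := h1.trans (Finset.card_le_two)
      norm_num at h3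
    have h1 : (x - 1) * ((x ^ 3 + x + 1) * (x ^ 3 + x ^ 2 + 1)) = 0 := by
      linear_combination h7 x hx.1 - (x ^ 3 - x ^ 4) * h2
    rcases mul_eq_zero.mp h1 with h | h
    · exact absurd (sub_eq_zero.mp h) hx.2
    rcases mul_eq_zero.mp h with h | h
    · exact ⟨x, h⟩
    · refine ⟨x⁻¹, ?_⟩
      have hx0 := hx.1
      field_simp
      linear_combination h
  have ha0 : a ≠ 0 := by
    intro h; rw [h] at ha; simp at ha
  have ha1 : a ≠ 1 := by
    intro h; rw [h] at ha
    have : (1 : F) = 0 := by linear_combination ha - h2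
    exact one_ne_zero this
  -- the map `y ↦ y⁴ + y³ + y²` misses the square of some nonzero `e`
  obtain ⟨d, hd0, hd⟩ : ∃ d : F, d ≠ 0 ∧ ∀ v : F, v ≠ 0 → v ^ 4 + v ^ 3 + v ^ 2 ≠ d := by
    by_contra hno
    push Not at hno
    have hsurj : (Finset.univ.erase (0 : F)) ⊆
        (((Finset.univ.erase (0 : F)).erase a).image (fun v => v ^ 4 + v ^ 3 + v ^ 2)) := by
      intro d hd
      obtain ⟨v, hv0, hv⟩ := hno d (Finset.mem_erase.mp hd).1
      by_cases hvx : v = a
      · refine Finset.mem_image.mpr ⟨1, ?_, ?_⟩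
        · simp [Ne.symm ha1]
        · rw [← hv, hvx]
          linear_combination (-a - 1) * ha + (a + 2) * h2
      · exact Finset.mem_image.mpr ⟨v, by simp [hvx, hv0], hv⟩
    have h1 := (Finset.card_le_card hsurj).trans Finset.card_image_le
    rw [Finset.card_erase_of_mem (show a ∈ Finset.univ.erase (0 : F) by simp [ha0])] at h1
    have h3 : 0 < (Finset.univ.erase (0 : F)).card := Finset.card_pos.mpr ⟨a, by simp [ha0]⟩
    omega
  -- `e = d⁴` satisfies `e² = d`
  have he : (d ^ 4) ^ 2 = d := by rw [← pow_mul]; exact h8 d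
  have he0 : d ^ 4 ≠ 0 := pow_ne_zero _ hd0
  refine ⟨gam (d ^ 4) 1 0 1 1 (by simpa using he0), disjoint_of 2 _ ?_ ?_ ?_ ?_⟩
  · intro u w c hc h
    rw [gam_apply] at h
    have h0 := congrFun h 0
    have h1 := congrFun h 1
    have h2' := congrFun h 2
    simp at h0 h1 h2'
    have hu : u ≠ 0 := by
      intro hu; rw [hu, mul_zero] at h0; exact zero_ne_one h0
    apply hd u hu
    -- c * u = 1, c * (d^4 + u^2) = w, c * (u + u^2) = w^2
    have h3 : (d ^ 4 + u ^ 2) ^ 2 = u * (u + u ^ 2) := by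
      have h4 : c ^ 2 * (d ^ 4 + u ^ 2) ^ 2 = c * (u + u ^ 2) := by
        rw [h2', ← h1]; ring
      calc (d ^ 4 + u ^ 2) ^ 2 = (c * u) ^ 2 * (d ^ 4 + u ^ 2) ^ 2 := by rw [h0]; ring
        _ = u ^ 2 * (c ^ 2 * (d ^ 4 + u ^ 2) ^ 2) := by ring
        _ = u ^ 2 * (c * (u + u ^ 2)) := by rw [h4]
        _ = (c * u) * (u * (u + u ^ 2)) := by ring
        _ = _ := by rw [h0, one_mul]
    linear_combination -h3 + he + (u ^ 4 + d ^ 4 * u ^ 2) * h2
  · intro u y c hc hy h
    rw [gam_apply] at h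
    have h0 := congrFun h 0
    have h1 := congrFun h 1
    have h2' := congrFun h 2
    simp at h0 h1 h2'
    have hu : u = 0 := by
      rcases h0 with h0 | h0
      · exact absurd h0 hc
      · exact h0
    rw [hu] at h2'
    simp at h2'
    rw [← h2', zero_pow (by norm_num)] at hy
    exact zero_ne_one hy
  · intro u y c hc hy h
    rw [gam_apply] at h
    have h0 := congrFun h 0
    have h1 := congrFun h 1
    have h2' := congrFun h 2
    simp at h0 h1 h2'
    rw [h0, one_mul] at h1 h2'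
    rw [← h1] at h2'
    apply hquad y
    linear_combination -h2' + (1 + y) * h2
  · intro u y c hc hu hy h
    rw [gam_apply] at h
    have h0 := congrFun h 0
    simp at h0
    exact hc h0

end even

/-- For every prime `p` and every field `F` of order `p³` there is a projectivity `γ` of
`PG(2, F)` with `B ∩ γ(B) = ∅`. -/
theorem result (p : ℕ) (hp : p.Prime) (F : Type) [Field F] [Fintype F]
    (hF : Fintype.card F = p ^ 3) :
    ∃ γ : (Fin 3 → F) ≃ₗ[F] (Fin 3 → F),
      B F p ∩ (Projectivization.map γ.toLinearMap γ.injective '' B F p) = ∅ := by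
  have h : ∃ γ : (Fin 3 → F) ≃ₗ[F] (Fin 3 → F),
      Disjoint (B F p) (Projectivization.map γ.toLinearMap γ.injective '' B F p) := by
    rcases Nat.lt_or_ge p 3 with h3 | h3
    · have := hp.two_le
      obtain rfl : p = 2 := by omega
      exact even_case hF
    · exact odd_case p hp h3 hF
  obtain ⟨γ, hγ⟩ := h
  exact ⟨γ, Set.disjoint_iff_inter_eq_empty.mp hγ⟩

end Pool.Agent.Results.MP_837a86_co.DisjointCopies
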